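import Pool.Agent.H81.FX.Targets

/-! Row DAP of board fcx (MP_2822c4_an): approximation in the augmentation ideal. -/

set_option autoImplicit false

namespace Pool.Agent.H71.FCX

open Pool.Agent.H81.FX Finset Filter Topology

theorem pf_DAP : T_DAP := by
  intro ι b hb hb0 hb1 ε hε
  classical
  set η : ℝ := min ε 1 / 8 with hη
  have hη0 : 0 < η := by
    have : 0 < min ε 1 := lt_min hε one_pos
    positivity
  have hη1 : 3 * η ≤ ε := by
    have h1 : min ε 1 ≤ ε := min_le_left _ _
    have : η ≤ ε / 8 := by rw [hη]; linarith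
    linarith
  have hn : Summable (fun g => ‖b g‖) := hb.norm
  obtain ⟨S₀, hS₀⟩ := (Metric.tendsto_atTop.1 hn.hasSum) η hη0
  set S : Finset (FreeGroup ι) := insert 1 S₀ with hS
  have h1S : (1 : FreeGroup ι) ∈ S := mem_insert_self _ _
  have htail : ∑' g, ‖b g‖ - ∑ g ∈ S, ‖b g‖ ≤ η := by
    have h := hS₀ S (subset_insert _ _)
    rw [Real.dist_eq, abs_sub_comm] at h
    exact (le_abs_self _).trans h.le
  have hoff : HasSum (fun g => if g ∈ S then (0 : ℝ) else ‖b g‖)
      (∑' g, ‖b g‖ - ∑ g ∈ S, ‖b g‖) := by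
    have h2 : HasSum (fun g => if g ∈ S then ‖b g‖ else 0) (∑ g ∈ S, ‖b g‖) := by
      have h3 : HasSum (fun g => if g ∈ S then ‖b g‖ else 0)
          (∑ g ∈ S, if g ∈ S then ‖b g‖ else 0) :=
        hasSum_sum_of_ne_finset_zero (fun g hg => if_neg hg)
      rwa [sum_congr rfl (fun g hg => if_pos hg)] at h3
    have e : (fun g => if g ∈ S then (0 : ℝ) else ‖b g‖) =
        fun g => ‖b g‖ - (if g ∈ S then ‖b g‖ else 0) := by
      funext g
      split_ifs <;> simp
    rw [e]
    exact hn.hasSum.sub h2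
  set σ : ℂ := ∑ g ∈ S, b g with hσ
  have hσn : ‖σ‖ ≤ η := by
    have h2 : HasSum (fun g => if g ∈ S then (0 : ℂ) else b g) (0 - σ) := by
      have h3 : HasSum (fun g => if g ∈ S then b g else 0) (∑ g ∈ S, b g) := by
        have h3 : HasSum (fun g => if g ∈ S then b g else 0)
            (∑ g ∈ S, if g ∈ S then b g else 0) :=
          hasSum_sum_of_ne_finset_zero (fun g hg => if_neg hg)
        rwa [sum_congr rfl (fun g hg => if_pos hg)] at h3
      have h4 := hb.hasSum.sub h3
      rw [hb0] at h4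
      have e : (fun g => if g ∈ S then (0 : ℂ) else b g) =
          fun g => b g - (if g ∈ S then b g else 0) := by
        funext g
        split_ifs <;> simp
      rw [e]
      exact h4
    have h5 : ‖(0 : ℂ) - σ‖ ≤ ∑' g, ‖b g‖ - ∑ g ∈ S, ‖b g‖ := by
      rw [← h2.tsum_eq, ← hoff.tsum_eq]
      have h6 : ∀ g, ‖(if g ∈ S then (0 : ℂ) else b g)‖ = if g ∈ S then (0 : ℝ) else ‖b g‖ := by
        intro g; split_ifs <;> simp
      have h7 : Summable (fun g => ‖(if g ∈ S then (0 : ℂ) else b g)‖) := by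
        simp only [h6]; exact hoff.summable
      refine (norm_tsum_le_tsum_norm h7).trans ?_
      simp only [h6]; exact le_rfl
    rw [zero_sub, norm_neg] at h5
    linarith
  have h1η : (0 : ℝ) < 1 + η := by linarith
  have h1ηc : ((1 + η : ℝ) : ℂ) ≠ 0 := by exact_mod_cast h1η.ne'
  have hnη : ‖((1 + η : ℝ) : ℂ)‖ = 1 + η := by
    rw [Complex.norm_real, Real.norm_eq_abs, abs_of_pos h1η]
  refine ⟨S, fun g => if g ∈ S then (b g - if g = 1 then σ else 0) / ((1 + η : ℝ) : ℂ) else 0,
    fun g hg => if_neg hg, ?_, ?_, ?_⟩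
  · rw [sum_congr rfl (fun g hg => if_pos hg), ← sum_div, sum_sub_distrib, sum_ite_eq', if_pos h1S,
      ← hσ, sub_self, zero_div]
  · have h2 : ∀ g ∈ S, ‖(if g ∈ S then (b g - if g = 1 then σ else 0) / ((1 + η : ℝ) : ℂ)
        else 0)‖ ≤ (‖b g‖ + if g = 1 then ‖σ‖ else 0) / (1 + η) := by
      intro g hg
      rw [if_pos hg]
      rw [norm_div, hnη]
      apply div_le_div_of_nonneg_right _ h1η.le
      refine (norm_sub_le _ _).trans ?_
      split_ifs <;> simp
    refine (sum_le_sum h2).trans ?_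
    rw [← sum_div, sum_add_distrib, sum_ite_eq', if_pos h1S, div_le_one h1η]
    have h3 : ∑ g ∈ S, ‖b g‖ ≤ ∑' g, ‖b g‖ := hn.sum_le_tsum _ (fun g _ => norm_nonneg _)
    linarith
  · have hbd : HasSum (fun g => (if g ∈ S then (0 : ℝ) else ‖b g‖) + η * ‖b g‖ +
        (if g = 1 then η else 0)) ((∑' g, ‖b g‖ - ∑ g ∈ S, ‖b g‖) + η * ∑' g, ‖b g‖ + η) :=
      (hoff.add (hn.hasSum.mul_left η)).add (hasSum_ite_eq 1 η)
    have hle : ∀ g, ‖b g - (if g ∈ S then (b g - if g = 1 then σ else 0) / ((1 + η : ℝ) : ℂ)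
        else 0)‖ ≤ (if g ∈ S then (0 : ℝ) else ‖b g‖) + η * ‖b g‖ + (if g = 1 then η else 0) := by
      intro g
      by_cases hg : g ∈ S
      · rw [if_pos hg, if_pos hg]
        have h2 : b g - (b g - if g = 1 then σ else 0) / ((1 + η : ℝ) : ℂ) =
            ((η : ℂ) * b g + if g = 1 then σ else 0) / ((1 + η : ℝ) : ℂ) := by
          rw [eq_div_iff h1ηc, sub_mul, div_mul_cancel₀ _ h1ηc]
          push_cast
          ring
        rw [h2, norm_div, hnη, div_le_iff₀ h1η]
        have h3 : ‖(η : ℂ) * b g + if g = 1 then σ else 0‖ ≤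
            η * ‖b g‖ + (if g = 1 then η else 0) := by
          refine (norm_add_le _ _).trans (add_le_add ?_ ?_)
          · rw [norm_mul, Complex.norm_real, Real.norm_eq_abs, abs_of_pos hη0]
          · split_ifs
            · exact hσn
            · simp
        have h4 : 0 ≤ η * ‖b g‖ + (if g = 1 then η else 0) := (norm_nonneg _).trans h3
        nlinarith
      · rw [if_neg hg, if_neg hg, sub_zero]
        have h3 : 0 ≤ η * ‖b g‖ := by positivity
        have h4 : (0 : ℝ) ≤ (if g = 1 then η else 0) := by split_ifs <;> linarith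
        linarith
    have hsum : Summable (fun g => ‖b g - (if g ∈ S then
        (b g - if g = 1 then σ else 0) / ((1 + η : ℝ) : ℂ) else 0)‖) :=
      Summable.of_nonneg_of_le (fun g => norm_nonneg _) hle hbd.summable
    refine (hsum.tsum_le_tsum hle hbd.summable).trans ?_
    rw [hbd.tsum_eq]
    have h5 : η * ∑' g, ‖b g‖ ≤ η * 1 := mul_le_mul_of_nonneg_left hb1 hη0.le
    linarith

end Pool.Agent.H71.FCX
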