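import Pool.Agent.H81.FX.Targets

/-! Row NUM of board fcx (MP_2822c4_an): the numerical lemma. -/

set_option autoImplicit false

namespace Pool.Agent.H71.FCX

open Pool.Agent.H81.FX Finset Filter Topology

/-- The number of small classes. -/
noncomputable def J0 (k₀ : ℝ) (N : ℕ) : ℕ := ⌈Real.logb 2 (N / k₀)⌉₊

lemma le_J0 {k₀ : ℝ} (hk : 0 < k₀) {N : ℕ} (hN : 1 ≤ N) : (N : ℝ) ≤ 2 ^ (J0 k₀ N) * k₀ := by
  have hN' : (0 : ℝ) < N := by exact_mod_cast hN
  have h1 : (0 : ℝ) < N / k₀ := by positivity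
  have h2 : (N : ℝ) / k₀ = (2 : ℝ) ^ (Real.logb 2 (N / k₀)) := by
    rw [Real.rpow_logb (by norm_num) (by norm_num) h1]
  have h3 : (2 : ℝ) ^ (Real.logb 2 (N / k₀)) ≤ (2 : ℝ) ^ ((J0 k₀ N : ℕ) : ℝ) := by
    apply Real.rpow_le_rpow_of_exponent_le (by norm_num)
    exact Nat.le_ceil _
  rw [Real.rpow_natCast] at h3
  rw [← h2] at h3
  rwa [div_le_iff₀ hk] at h3

lemma tendsto_J0 (k₀ : ℝ) (hk : 0 < k₀) :
    Tendsto (fun N : ℕ => (J0 k₀ N : ℝ) / N) atTop (𝓝 0) := by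
  have hlog : Tendsto (fun N : ℕ => Real.log N / N) atTop (𝓝 0) :=
    (Real.isLittleO_log_id_atTop.tendsto_div_nhds_zero).comp tendsto_natCast_atTop_atTop
  have hone : Tendsto (fun N : ℕ => (1 : ℝ) / N) atTop (𝓝 0) := tendsto_one_div_atTop_nhds_zero_nat
  have hlim : Tendsto (fun N : ℕ => (1 / Real.log 2) * (Real.log N / N) +
      (|Real.log k₀| / Real.log 2 + 1) * (1 / N)) atTop (𝓝 0) := by
    have := (hlog.const_mul (1 / Real.log 2)).add (hone.const_mul (|Real.log k₀| / Real.log 2 + 1))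
    simpa using this
  refine squeeze_zero' (Eventually.of_forall fun N => by positivity) ?_ hlim
  filter_upwards [eventually_ge_atTop 1] with N hN
  have hN' : (1 : ℝ) ≤ N := by exact_mod_cast hN
  have hN0 : (0 : ℝ) < N := by linarith
  have hl2 : 0 < Real.log 2 := Real.log_pos (by norm_num)
  have h0 : 0 ≤ Real.log N := Real.log_nonneg hN'
  have h1 : (J0 k₀ N : ℝ) ≤ |Real.logb 2 (N / k₀)| + 1 := by
    have h2 : (J0 k₀ N : ℝ) ≤ (⌈|Real.logb 2 (N / k₀)|⌉₊ : ℕ) := by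
      exact_mod_cast Nat.ceil_mono (le_abs_self _)
    have h3 := Nat.ceil_lt_add_one (abs_nonneg (Real.logb 2 (N / k₀)))
    linarith
  have h4 : |Real.logb 2 (N / k₀)| ≤ (Real.log N + |Real.log k₀|) / Real.log 2 := by
    unfold Real.logb
    rw [abs_div, abs_of_pos hl2, Real.log_div (by positivity) (by positivity)]
    apply div_le_div_of_nonneg_right _ hl2.le
    calc |Real.log N - Real.log k₀| ≤ |Real.log N| + |Real.log k₀| := abs_sub _ _
      _ = Real.log N + |Real.log k₀| := by rw [abs_of_nonneg h0]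
  have h5 : (J0 k₀ N : ℝ) ≤ (Real.log N + |Real.log k₀|) / Real.log 2 + 1 := by linarith
  calc (J0 k₀ N : ℝ) / N ≤ ((Real.log N + |Real.log k₀|) / Real.log 2 + 1) / N := by
        apply div_le_div_of_nonneg_right h5 hN0.le
    _ = (1 / Real.log 2) * (Real.log N / N) + (|Real.log k₀| / Real.log 2 + 1) * (1 / N) := by
        field_simp
        ring

/-- The coefficient of the class `j`. -/
noncomputable def cf (σ κ : ℝ) (J j : ℕ) : ℝ :=
  if j < J then 2 * σ else 2 * (3 / 4 : ℝ) ^ (j - J) + κ * (8 / 9 : ℝ) ^ (j - J)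

lemma cf_nonneg {σ κ : ℝ} (hσ : 0 < σ) (hκ : 0 < κ) (J j : ℕ) : 0 ≤ cf σ κ J j := by
  unfold cf; split_ifs <;> positivity

lemma geo_le (r : ℝ) (h0 : 0 ≤ r) (h1 : r < 1) (n : ℕ) : ∑ i ∈ range n, r ^ i ≤ 1 / (1 - r) := by
  rw [one_div]
  calc ∑ i ∈ range n, r ^ i ≤ ∑' i, r ^ i :=
        (summable_geometric_of_lt_one h0 h1).sum_le_tsum _ (fun i _ => pow_nonneg h0 i)
    _ = (1 - r)⁻¹ := tsum_geometric_of_lt_one h0 h1

lemma sum_cf {σ κ : ℝ} (hσ : 0 < σ) (hκ : 0 < κ) (J M : ℕ) :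
    ∑ j ∈ range M, cf σ κ J j ≤ 2 * σ * J + 8 + 9 * κ := by
  have h1 : ∑ j ∈ range M, cf σ κ J j ≤ ∑ j ∈ range (J + M), cf σ κ J j :=
    sum_le_sum_of_subset_of_nonneg (range_subset_range.2 (by omega))
      (fun j _ _ => cf_nonneg hσ hκ J j)
  have h2 : ∑ j ∈ range (J + M), cf σ κ J j =
      ∑ j ∈ range J, cf σ κ J j + ∑ i ∈ range M, cf σ κ J (J + i) := by
    rw [sum_range_add]
  have h3 : ∑ j ∈ range J, cf σ κ J j = 2 * σ * J := by
    have : ∀ j ∈ range J, cf σ κ J j = 2 * σ := by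
      intro j hj
      unfold cf; rw [if_pos (mem_range.1 hj)]
    rw [sum_congr rfl this, sum_const, card_range, nsmul_eq_mul]; ring
  have h4 : ∑ i ∈ range M, cf σ κ J (J + i) =
      2 * ∑ i ∈ range M, (3 / 4 : ℝ) ^ i + κ * ∑ i ∈ range M, (8 / 9 : ℝ) ^ i := by
    rw [mul_sum, mul_sum, ← sum_add_distrib]
    apply sum_congr rfl
    intro i _
    unfold cf
    rw [if_neg (by omega)]
    simp
  have h5 := geo_le (3 / 4) (by norm_num) (by norm_num) M
  have h6 := geo_le (8 / 9) (by norm_num) (by norm_num) M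
  have h7 : (1 : ℝ) / (1 - 3 / 4) = 4 := by norm_num
  have h8 : (1 : ℝ) / (1 - 8 / 9) = 9 := by norm_num
  rw [h7] at h5
  rw [h8] at h6
  have h9 : κ * ∑ i ∈ range M, (8 / 9 : ℝ) ^ i ≤ κ * 9 := mul_le_mul_of_nonneg_left h6 hκ.le
  linarith

theorem pf_NUM : T_NUM := by
  intro κ σ k₀ hκ hσ hk
  refine ⟨fun N => 2 * σ * J0 k₀ N + 8 + 9 * κ, fun N => by positivity, ?_, ?_⟩
  · have h1 := (tendsto_J0 k₀ hk).const_mul (2 * σ)
    have h2 : Tendsto (fun N : ℕ => (1 : ℝ) / N) atTop (𝓝 0) := tendsto_one_div_atTop_nhds_zero_nat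
    have h3 := h1.add (h2.const_mul (8 + 9 * κ))
    simp only [mul_zero, add_zero] at h3
    refine h3.congr (fun N => ?_)
    ring
  · intro N hN α A g y K hK hg hq hy1 hy2
    have hN0 : (0 : ℝ) < N := by exact_mod_cast hN
    classical
    -- the class
    let j : α → ℕ := fun p => Nat.log 2 ⌊g p / k₀⌋₊
    have hj1 : ∀ p ∈ A, (2 : ℝ) ^ (j p) * k₀ ≤ g p := by
      intro p hp
      have h1 : 1 ≤ g p / k₀ := by rw [le_div_iff₀ hk]; linarith [hg p hp]
      have h2 : ⌊g p / k₀⌋₊ ≠ 0 := by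
        have := Nat.le_floor (α := ℝ) (n := 1) (a := g p / k₀) (by simpa using h1)
        omega
      have h3 : 2 ^ (j p) ≤ ⌊g p / k₀⌋₊ := Nat.pow_log_le_self 2 h2
      have h4 : ((2 : ℝ) ^ (j p)) ≤ (⌊g p / k₀⌋₊ : ℝ) := by exact_mod_cast h3
      have h5 : (⌊g p / k₀⌋₊ : ℝ) ≤ g p / k₀ := Nat.floor_le (by linarith)
      rw [← le_div_iff₀ hk]; linarith
    have hj2 : ∀ p ∈ A, g p ≤ 2 * ((2 : ℝ) ^ (j p) * k₀) := by
      intro p hp
      have h1 : 1 ≤ g p / k₀ := by rw [le_div_iff₀ hk]; linarith [hg p hp]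
      have h3 : ⌊g p / k₀⌋₊ < 2 ^ (j p + 1) := Nat.lt_pow_succ_log_self (by norm_num) _
      have h4 : g p / k₀ < ⌊g p / k₀⌋₊ + 1 := Nat.lt_floor_add_one _
      have h5 : ((⌊g p / k₀⌋₊ : ℝ) + 1) ≤ (2 : ℝ) ^ (j p + 1) := by exact_mod_cast h3
      have h6 : g p / k₀ ≤ (2 : ℝ) ^ (j p + 1) := by linarith
      rw [div_le_iff₀ hk] at h6
      rw [pow_succ] at h6
      linarith
    -- the bound in one class
    have hyc : ∀ p ∈ A, y p ≤ cf σ κ (J0 k₀ N) (j p) * ((2 : ℝ) ^ (j p) * k₀) := by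
      intro p hp
      unfold cf
      split_ifs with h
      · have h1 := hy1 p hp
        have h2 := mul_le_mul_of_nonneg_left (hj2 p hp) hσ.le
        linarith
      · push Not at h
        set i := j p - J0 k₀ N with hi
        have hji : j p = J0 k₀ N + i := by omega
        have h1 := hy2 p hp ((3 / 4 : ℝ) ^ i) (by positivity)
        have h2 : (3 / 4 : ℝ) ^ i * g p ≤ (3 / 4 : ℝ) ^ i * (2 * ((2 : ℝ) ^ (j p) * k₀)) :=
          mul_le_mul_of_nonneg_left (hj2 p hp) (by positivity)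
        have h3 : κ * N / ((3 / 4 : ℝ) ^ i) ^ 2 ≤ κ * (8 / 9 : ℝ) ^ i * ((2 : ℝ) ^ (j p) * k₀) := by
          rw [div_le_iff₀ (by positivity)]
          have h4 := le_J0 hk hN
          have h5 : (8 / 9 : ℝ) ^ i * ((3 / 4 : ℝ) ^ i) ^ 2 * (2 : ℝ) ^ i = 1 := by
            rw [← pow_mul, mul_comm i 2, pow_mul, ← mul_pow, ← mul_pow]
            norm_num
          have h6 : κ * (8 / 9 : ℝ) ^ i * ((2 : ℝ) ^ (j p) * k₀) * ((3 / 4 : ℝ) ^ i) ^ 2 =
              κ * ((2 : ℝ) ^ (J0 k₀ N) * k₀) *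
                ((8 / 9 : ℝ) ^ i * ((3 / 4 : ℝ) ^ i) ^ 2 * (2 : ℝ) ^ i) := by
            rw [hji, pow_add]; ring
          rw [h6, h5, mul_one]
          exact mul_le_mul_of_nonneg_left h4 hκ.le
        calc y p ≤ _ := h1
          _ ≤ (3 / 4 : ℝ) ^ i * (2 * ((2 : ℝ) ^ (j p) * k₀)) +
              κ * (8 / 9 : ℝ) ^ i * ((2 : ℝ) ^ (j p) * k₀) := add_le_add h2 h3
          _ = _ := by ring
    -- sum over the classes
    let M : ℕ := A.sup j + 1
    have hM : ∀ p ∈ A, j p ∈ range M := by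
      intro p hp
      rw [mem_range]
      exact Nat.lt_succ_of_le (le_sup (f := j) hp)
    rw [← sum_fiberwise_of_maps_to hM]
    calc ∑ i ∈ range M, ∑ p ∈ A with j p = i, y p
        ≤ ∑ i ∈ range M, cf σ κ (J0 k₀ N) i * K := by
          apply sum_le_sum
          intro i _
          have h1 : ∑ p ∈ A with j p = i, y p ≤
              ∑ p ∈ A with j p = i, cf σ κ (J0 k₀ N) i * ((2 : ℝ) ^ i * k₀) := by
            apply sum_le_sum
            intro p hp
            rw [mem_filter] at hp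
            have := hyc p hp.1
            rwa [hp.2] at this
          rw [sum_const, nsmul_eq_mul] at h1
          have h2 := hq ((2 : ℝ) ^ i * k₀) (by positivity) (A.filter (fun p => j p = i))
            (filter_subset _ _) (by
              intro p hp
              rw [mem_filter] at hp
              have := hj1 p hp.1
              rwa [hp.2] at this)
          calc ∑ p ∈ A with j p = i, y p ≤ _ := h1
            _ = cf σ κ (J0 k₀ N) i * ((2 : ℝ) ^ i * k₀ * (A.filter (fun p => j p = i)).card) := by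
                ring
            _ ≤ cf σ κ (J0 k₀ N) i * K := mul_le_mul_of_nonneg_left h2 (cf_nonneg hσ hκ _ _)
      _ = (∑ i ∈ range M, cf σ κ (J0 k₀ N) i) * K := by rw [sum_mul]
      _ ≤ (2 * σ * J0 k₀ N + 8 + 9 * κ) * K := mul_le_mul_of_nonneg_right (sum_cf hσ hκ _ _) hK

end Pool.Agent.H71.FCX
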