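import Pool.Agent.H81.FX.Targets

/-! Row ONEC of board fcx (MP_2822c4_an): one class of vertices. -/

set_option autoImplicit false

namespace Pool.Agent.H71.FCX

open Pool.Agent.H81.FX Finset Filter Topology

variable {ι : Type} [DecidableEq ι]

lemma min_one_sq_le {a : ℝ} (ha : 0 ≤ a) : min 1 (a ^ 2) ≤ a := by
  rcases le_total 1 a with h | h
  · exact (min_le_left _ _).trans h
  · exact (min_le_right _ _).trans (by nlinarith)

lemma G_eq_zero_of {t : List (Lt ι)} {k : FreeGroup ι → ℝ} (hk : ∀ v, 0 ≤ k v) {x : FreeGroup ι}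
    {s : Lt ι} (h : G t k x s = 0) {n : ℕ} (hn : n < t.length) (hs : t[n]? = some s) :
    k (x * (pre t n)⁻¹) = 0 := by
  unfold G at h
  rw [sum_eq_zero_iff_of_nonneg (by intro i _; split_ifs; exacts [hk _, le_rfl])] at h
  have := h n (mem_range.2 hn)
  rwa [if_pos hs] at this

lemma le_G_of {t : List (Lt ι)} {k : FreeGroup ι → ℝ} {k₀ : ℝ} (hk0 : 0 < k₀)
    (hk : ∀ v, k v = 0 ∨ k₀ ≤ k v) {x : FreeGroup ι}
    {s : Lt ι} (h : G t k x s ≠ 0) : k₀ ≤ G t k x s := by
  have hnn : ∀ v, 0 ≤ k v := fun v => by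
    rcases hk v with h | h
    · rw [h]
    · linarith
  unfold G at h ⊢
  obtain ⟨n, hn, hne⟩ := exists_ne_zero_of_sum_ne_zero h
  have h1 : k₀ ≤ (if t[n]? = some s then k (x * (pre t n)⁻¹) else 0) := by
    split_ifs at hne ⊢ with hs
    · rcases hk (x * (pre t n)⁻¹) with h | h
      · exact absurd h hne
      · exact h
    · exact absurd rfl hne
  refine h1.trans ?_
  refine single_le_sum (f := fun n => if t[n]? = some s then k (x * (pre t n)⁻¹) else 0) ?_ hn
  intro i _
  show 0 ≤ (if t[i]? = some s then k (x * (pre t i)⁻¹) else 0)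
  split_ifs
  exacts [hnn _, le_rfl]

theorem pf_ONEC (hBRL : T_BRL) (hNUM : T_NUM) : T_ONEC := by
  intro κ k₀ hκ hk0
  obtain ⟨Λ, hΛ0, hΛ, hmain⟩ := hNUM κ (κ + 1) k₀ hκ (by linarith) hk0
  refine ⟨Λ, hΛ0, hΛ, ?_⟩
  intro N hN ι _ t ht w hw hsw Z k hk hkZ J hJ A hA
  have hnn : ∀ v, 0 ≤ k v := fun v => by
    rcases hk v with h | h
    · rw [h]
    · linarith
  set A' : Finset (FreeGroup ι × Lt ι) := A.filter (fun p => G t k p.1 p.2 ≠ 0) with hA'
  have hsplit : ∑ p ∈ A, Yw t w (fun v => k v ^ 2) p.1 p.2 =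
      ∑ p ∈ A', Yw t w (fun v => k v ^ 2) p.1 p.2 := by
    rw [hA', sum_filter_of_ne]
    intro p _ hp hG
    apply hp
    unfold Yw
    apply sum_eq_zero
    intro n hn
    split_ifs with hs
    · show min 1 (w n * k (p.1 * (pre t n)⁻¹) ^ 2) = 0
      rw [G_eq_zero_of hnn hG (mem_range.1 hn) hs]
      simp
    · rfl
  rw [hsplit]
  refine hmain N hN _ A' (fun p => G t k p.1 p.2) (fun p => Yw t w (fun v => k v ^ 2) p.1 p.2)
    (∑ v ∈ Z, k v) (sum_nonneg fun v _ => hnn v) ?_ ?_ ?_ ?_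
  · intro p hp
    exact le_G_of hk0 hk (mem_filter.1 hp).2
  · intro q hq B hB hBq
    refine hBRL ι t ht Z k hnn hkZ J hJ q hq B ?_
    intro p hp
    obtain ⟨h1, h2⟩ := hA p (mem_filter.1 (hB hp)).1
    exact ⟨h1, h2, hBq p hp⟩
  · intro p _
    show Yw t w (fun v => k v ^ 2) p.1 p.2 ≤ (κ + 1) * G t k p.1 p.2
    unfold Yw G
    rw [mul_sum]
    apply sum_le_sum
    intro n hn
    obtain ⟨hw0, hw1⟩ := hw n (mem_range.1 hn)
    split_ifs with hs
    · set a := k (p.1 * (pre t n)⁻¹) with ha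
      have ha0 : 0 ≤ a := hnn _
      rcases le_total 1 ((κ + 1) * a) with h | h
      · exact (min_le_left _ _).trans h
      · refine (min_le_right _ _).trans ?_
        have h1 : w n * a ^ 2 ≤ κ * a ^ 2 := mul_le_mul_of_nonneg_right hw1 (by positivity)
        have h2 : a ≤ 1 := by nlinarith
        nlinarith [mul_nonneg ha0 ha0, mul_nonneg hκ.le ha0]
    · simp
  · intro p _ l hl
    show Yw t w (fun v => k v ^ 2) p.1 p.2 ≤ l * G t k p.1 p.2 + κ * N / l ^ 2
    have h1 : Yw t w (fun v => k v ^ 2) p.1 p.2 ≤ l * G t k p.1 p.2 +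
        ∑ n ∈ range t.length, (if l ^ 2 < w n then (1 : ℝ) else 0) := by
      unfold Yw G
      rw [mul_sum, ← sum_add_distrib]
      apply sum_le_sum
      intro n hn
      have hind : (0 : ℝ) ≤ (if l ^ 2 < w n then (1 : ℝ) else 0) := by split_ifs <;> norm_num
      split_ifs with hs
      · set a := k (p.1 * (pre t n)⁻¹) with ha
        have ha0 : 0 ≤ a := hnn _
        rename_i hlw
        have : 0 ≤ l * a := by positivity
        linarith [min_le_left (1 : ℝ) (w n * a ^ 2)]
      · set a := k (p.1 * (pre t n)⁻¹) with ha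
        have ha0 : 0 ≤ a := hnn _
        rename_i hlw
        push Not at hlw
        have h2 : min 1 (w n * a ^ 2) ≤ min 1 ((l * a) ^ 2) := by
          apply min_le_min le_rfl
          rw [mul_pow]
          exact mul_le_mul_of_nonneg_right hlw (by positivity)
        have h3 := min_one_sq_le (a := l * a) (by positivity)
        linarith
      · linarith
      · linarith
    have h2 : ∑ n ∈ range t.length, (if l ^ 2 < w n then (1 : ℝ) else 0) ≤ κ * N / l ^ 2 := by
      rw [le_div_iff₀ (by positivity), sum_mul]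
      refine le_trans (sum_le_sum fun n hn => ?_) hsw
      obtain ⟨hw0, _⟩ := hw n (mem_range.1 hn)
      split_ifs with h
      · linarith
      · linarith
    linarith

end Pool.Agent.H71.FCX
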