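import Pool.Agent.H81.FX.Targets

/-! Row TREE of board fcx (MP_2822c4_an): all words in the tree. -/

set_option autoImplicit false

namespace Pool.Agent.H71.FCX

open Pool.Agent.H81.FX Finset Filter Topology

lemma min_add_le {V a b : ℝ} (hV : 0 ≤ V) (ha : 0 ≤ a) (hb : 0 ≤ b) :
    min V (a + b) ≤ min V a + min V b := by
  rcases le_total V a with h | h
  · rw [min_eq_left h]
    have : 0 ≤ min V b := le_min hV hb
    linarith [min_le_left V (a + b)]
  · rw [min_eq_right h]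
    rcases le_total V b with h' | h'
    · rw [min_eq_left h']; linarith [min_le_left V (a + b)]
    · rw [min_eq_right h']; exact min_le_right _ _

lemma min_sum_le {α : Type} (P : Finset α) {V : ℝ} (hV : 0 ≤ V) (F : α → ℝ)
    (hF : ∀ l ∈ P, 0 ≤ F l) : min V (∑ l ∈ P, F l) ≤ ∑ l ∈ P, min V (F l) := by
  classical
  induction P using Finset.induction_on with
  | empty => simp [hV]
  | insert a P ha ih =>
    rw [sum_insert ha, sum_insert ha]
    have h1 := ih (fun l hl => hF l (mem_insert_of_mem hl))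
    have h2 := min_add_le hV (hF a (mem_insert_self _ _))
      (sum_nonneg (s := P) (f := F) (fun l hl => hF l (mem_insert_of_mem hl)))
    linarith

/-- If the sum over `P` is large then one term is large. -/
lemma exists_large {α : Type} (P : Finset α) (g : α → ℝ) {δ τ : ℝ} (hδ : 0 < δ) (_hτ : 0 < τ)
    (hP : P.card * τ ≤ 1) (h : δ ≤ ∑ l ∈ P, g l) : ∃ l ∈ P, δ * τ ≤ g l := by
  by_contra hc
  push Not at hc
  rcases P.eq_empty_or_nonempty with h0 | h0
  · rw [h0] at h; simp at h; linarith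
  · have h1 : ∑ l ∈ P, g l < ∑ l ∈ P, δ * τ := sum_lt_sum_of_nonempty h0 hc
    rw [sum_const, nsmul_eq_mul] at h1
    have h2 : (P.card : ℝ) * (δ * τ) ≤ δ := by nlinarith
    linarith

section
variable {ι : Type} [DecidableEq ι]

/-- The weights on the branch with the end `l`. -/
noncomputable def wl (R : Finset (FreeGroup ι)) (leaf : FreeGroup ι → FreeGroup ι)
    (w : FreeGroup ι → ℝ) (s : Lt ι) (l : FreeGroup ι) (n : ℕ) : ℝ :=
  if pre l.toWord n ∈ R ∧ leaf (pre l.toWord n * el s) = l then w (pre l.toWord n) else 0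

lemma wl_nonneg {R : Finset (FreeGroup ι)} {leaf : FreeGroup ι → FreeGroup ι}
    {w : FreeGroup ι → ℝ} (hw : ∀ r ∈ R, 0 ≤ w r) (s : Lt ι) (l : FreeGroup ι) (n : ℕ) :
    0 ≤ wl R leaf w s l n := by
  unfold wl
  split_ifs with h
  · exact hw _ h.1
  · exact le_rfl

/-- Sums over `R` are sums over the branches. -/
lemma sum_branches (hWRD : T_WRD) (hPRE : T_PRE) {R : Finset (FreeGroup ι)}
    {leaf : FreeGroup ι → FreeGroup ι} {P : Finset (FreeGroup ι)}
    (w : FreeGroup ι → ℝ) (s : Lt ι) (hR : ∀ r ∈ R, Up r s)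
    (hleaf : ∀ r ∈ R, leaf (r * el s) ∈ P ∧ (r * el s).toWord <+: (leaf (r * el s)).toWord)
    (φ : FreeGroup ι → ℝ) :
    ∑ r ∈ R, w r * φ r = ∑ l ∈ P, ∑ n ∈ range l.toWord.length,
      if l.toWord[n]? = some s then wl R leaf w s l n * φ (pre l.toWord n) else 0 := by
  classical
  rw [← sum_fiberwise_of_maps_to (g := fun r => leaf (r * el s)) (t := P)
    (fun r hr => (hleaf r hr).1)]
  apply sum_congr rfl
  intro l _
  have key : ∀ n, (if l.toWord[n]? = some s then wl R leaf w s l n * φ (pre l.toWord n) else 0) =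
      if (l.toWord[n]? = some s ∧ pre l.toWord n ∈ R ∧ leaf (pre l.toWord n * el s) = l) then
        w (pre l.toWord n) * φ (pre l.toWord n) else 0 := by
    intro n
    unfold wl
    by_cases h1 : l.toWord[n]? = some s
    · by_cases h2 : pre l.toWord n ∈ R ∧ leaf (pre l.toWord n * el s) = l
      · rw [if_pos h1, if_pos h2, if_pos ⟨h1, h2⟩]
      · rw [if_pos h1, if_neg h2, if_neg (fun h => h2 h.2), zero_mul]
    · rw [if_neg h1, if_neg (fun h => h1 h.1)]
  rw [sum_congr rfl (fun n _ => key n), ← sum_filter]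
  have hpre := hPRE ι l.toWord (FreeGroup.isReduced_toWord)
  refine sum_nbij' (fun r => r.toWord.length) (fun n => pre l.toWord n) ?_ ?_ ?_ ?_ ?_
  · intro r hr
    rw [mem_filter] at hr
    obtain ⟨hrR, hrl⟩ := hr
    have h1 := (hleaf r hrR).2
    rw [hrl, (hWRD ι r s s).1 (hR r hrR)] at h1
    obtain ⟨u, hu⟩ := h1
    have h2 : l.toWord.take r.toWord.length = r.toWord := by
      rw [← hu, List.append_assoc, List.take_left]
    have h3 : pre l.toWord r.toWord.length = r := by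
      unfold pre; rw [h2, FreeGroup.mk_toWord]
    have h4 : l.toWord[r.toWord.length]? = some s := by
      rw [← hu]; simp
    rw [mem_filter, mem_range]
    refine ⟨?_, h4, ?_, ?_⟩
    · rw [← hu]; simp
    · rw [h3]; exact hrR
    · rw [h3]; exact hrl
  · intro n hn
    rw [mem_filter] at hn ⊢
    exact ⟨hn.2.2.1, hn.2.2.2⟩
  · intro r hr
    rw [mem_filter] at hr
    obtain ⟨hrR, hrl⟩ := hr
    have h1 := (hleaf r hrR).2
    rw [hrl, (hWRD ι r s s).1 (hR r hrR)] at h1
    obtain ⟨u, hu⟩ := h1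
    have h2 : l.toWord.take r.toWord.length = r.toWord := by
      rw [← hu, List.append_assoc, List.take_left]
    show pre l.toWord r.toWord.length = r
    unfold pre; rw [h2, FreeGroup.mk_toWord]
  · intro n hn
    rw [mem_filter, mem_range] at hn
    show (pre l.toWord n).toWord.length = n
    rw [hpre.2.2.1 n, List.length_take]
    omega
  · intro r hr
    rw [mem_filter] at hr
    obtain ⟨hrR, hrl⟩ := hr
    have h1 := (hleaf r hrR).2
    rw [hrl, (hWRD ι r s s).1 (hR r hrR)] at h1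
    obtain ⟨u, hu⟩ := h1
    have h2 : l.toWord.take r.toWord.length = r.toWord := by
      rw [← hu, List.append_assoc, List.take_left]
    have h3 : pre l.toWord r.toWord.length = r := by
      unfold pre; rw [h2, FreeGroup.mk_toWord]
    show w r * φ r = w (pre l.toWord r.toWord.length) * φ (pre l.toWord r.toWord.length)
    rw [h3]

end

theorem pf_TREE (hWRD : T_WRD) (hPRE : T_PRE) (hLEAF : T_LEAF) (hONEP : T_ONEP)
    (hARRP : T_ARRP) : T_TREE := by
  intro κ V₀ δ₂ τ hκ hV₀ hδ hτ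
  obtain ⟨B1, hB1⟩ := hONEP κ V₀ (δ₂ * τ) hκ hV₀ (by positivity)
  obtain ⟨B2, hB2⟩ := hARRP κ V₀ (δ₂ * τ) hκ hV₀ (by positivity)
  refine ⟨⌈1 / τ⌉₊ * (B1 + B2), ?_⟩
  intro ι _ S β hβ X V hV 𝒥 R w h1 h2 h3
  classical
  set Q : Finset (FreeGroup ι) := 𝒥.biUnion (fun s => (R s).image (fun r => r * el s)) with hQ
  obtain ⟨P, hPQ, hPτ, hPl⟩ := hLEAF ι S β hβ τ hτ Q (by
    intro r hr
    rw [hQ, mem_biUnion] at hr
    obtain ⟨s, hs, hr⟩ := hr
    rw [mem_image] at hr
    obtain ⟨r', hr', rfl⟩ := hr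
    exact (h1 s hs r' hr').2.2)
  have hleaf' : ∀ r : FreeGroup ι, ∃ l, r ∈ Q → l ∈ P ∧ r.toWord <+: l.toWord := by
    intro r
    by_cases hr : r ∈ Q
    · obtain ⟨l, hl, hl'⟩ := hPl r hr
      exact ⟨l, fun _ => ⟨hl, hl'⟩⟩
    · exact ⟨1, fun h => absurd h hr⟩
  choose leaf hleaf using hleaf'
  have hleafR : ∀ s ∈ 𝒥, ∀ r ∈ R s,
      leaf (r * el s) ∈ P ∧ (r * el s).toWord <+: (leaf (r * el s)).toWord := by
    intro s hs r hr
    apply hleaf
    rw [hQ, mem_biUnion]
    exact ⟨s, hs, mem_image_of_mem _ hr⟩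
  have hwn : ∀ s ∈ 𝒥, ∀ r ∈ R s, 0 ≤ w s r := fun s hs r hr => (h1 s hs r hr).1
  have hUp : ∀ s ∈ 𝒥, ∀ r ∈ R s, Up r s := fun s hs r hr => (h1 s hs r hr).2.1
  -- the two kinds of overlaps
  have hdep : ∀ s ∈ 𝒥, ∀ x, ∑ r ∈ R s, w s r * β (x * r⁻¹) =
      ∑ l ∈ P, Fw l.toWord (wl (R s) leaf (w s) s l) β x s := by
    intro s hs x
    exact sum_branches hWRD hPRE (w s) s (hUp s hs) (hleafR s hs) (fun r => β (x * r⁻¹))
  have harr : ∀ s ∈ 𝒥, ∀ x, ∑ r ∈ R s, w s r * β (x * (r * el s)⁻¹) =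
      ∑ l ∈ P, Fa l.toWord (wl (R s) leaf (w s) s l) β x s := by
    intro s hs x
    rw [sum_branches hWRD hPRE (w s) s (hUp s hs) (hleafR s hs)
      (fun r => β (x * (r * el s)⁻¹))]
    apply sum_congr rfl
    intro l _
    unfold Fa
    apply sum_congr rfl
    intro n _
    by_cases hs' : l.toWord[n]? = some s
    · rw [if_pos hs', if_pos hs', (hPRE ι l.toWord (FreeGroup.isReduced_toWord)).1 n s hs']
    · rw [if_neg hs', if_neg hs']
  have hwt : ∀ s ∈ 𝒥, ∀ l ∈ P, Wt l.toWord (wl (R s) leaf (w s) s l) s ≤ κ := by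
    intro s hs l hl
    refine le_trans ?_ (h2 s hs)
    have h4 := sum_branches hWRD hPRE (w s) s (hUp s hs) (hleafR s hs) (fun _ => 1)
    simp only [mul_one] at h4
    rw [h4]
    refine single_le_sum (f := fun l : FreeGroup ι => ∑ n ∈ range l.toWord.length,
      if l.toWord[n]? = some s then wl (R s) leaf (w s) s l n else 0) ?_ hl
    intro l' _
    show 0 ≤ ∑ n ∈ range l'.toWord.length,
      if l'.toWord[n]? = some s then wl (R s) leaf (w s) s l' n else 0
    apply sum_nonneg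
    intro n _
    split_ifs
    · exact wl_nonneg (hwn s hs) s l' n
    · exact le_rfl
  have hFw0 : ∀ s ∈ 𝒥, ∀ l x, 0 ≤ Fw l.toWord (wl (R s) leaf (w s) s l) β x s := by
    intro s hs l x
    unfold Fw
    apply sum_nonneg
    intro n _
    split_ifs
    · exact mul_nonneg (wl_nonneg (hwn s hs) s l n) (hβ.1 _)
    · exact le_rfl
  have hFa0 : ∀ s ∈ 𝒥, ∀ l x, 0 ≤ Fa l.toWord (wl (R s) leaf (w s) s l) β x s := by
    intro s hs l x
    unfold Fa
    apply sum_nonneg
    intro n _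
    split_ifs
    · exact mul_nonneg (wl_nonneg (hwn s hs) s l n) (hβ.1 _)
    · exact le_rfl
  let JD : FreeGroup ι → Finset (Lt ι) := fun l => 𝒥.filter (fun s =>
    δ₂ * τ ≤ ∑ x ∈ X, min (V x) (Fw l.toWord (wl (R s) leaf (w s) s l) β x s))
  let JA : FreeGroup ι → Finset (Lt ι) := fun l => 𝒥.filter (fun s =>
    δ₂ * τ ≤ ∑ x ∈ X, min (V x) (Fa l.toWord (wl (R s) leaf (w s) s l) β x s))
  have hcov : 𝒥 ⊆ P.biUnion (fun l => JD l ∪ JA l) := by
    intro s hs
    rw [mem_biUnion]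
    rcases h3 s hs with h | h
    · have h5 : δ₂ ≤ ∑ l ∈ P, ∑ x ∈ X,
          min (V x) (Fw l.toWord (wl (R s) leaf (w s) s l) β x s) := by
        rw [sum_comm]
        refine h.trans (sum_le_sum fun x _ => ?_)
        rw [hdep s hs x]
        exact min_sum_le P (hV.1 x) _ (fun l _ => hFw0 s hs l x)
      obtain ⟨l, hl, hl'⟩ := exists_large P _ hδ hτ hPτ h5
      exact ⟨l, hl, mem_union_left _ (mem_filter.2 ⟨hs, hl'⟩)⟩
    · have h5 : δ₂ ≤ ∑ l ∈ P, ∑ x ∈ X,
          min (V x) (Fa l.toWord (wl (R s) leaf (w s) s l) β x s) := by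
        rw [sum_comm]
        refine h.trans (sum_le_sum fun x _ => ?_)
        rw [harr s hs x]
        exact min_sum_le P (hV.1 x) _ (fun l _ => hFa0 s hs l x)
      obtain ⟨l, hl, hl'⟩ := exists_large P _ hδ hτ hPτ h5
      exact ⟨l, hl, mem_union_right _ (mem_filter.2 ⟨hs, hl'⟩)⟩
  have hcard : ∀ l ∈ P, (JD l ∪ JA l).card ≤ B1 + B2 := by
    intro l hl
    refine (card_union_le _ _).trans (add_le_add ?_ ?_)
    · refine hB1 ι l.toWord (FreeGroup.isReduced_toWord) S β hβ X V hV (JD l)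
        (fun s => wl (R s) leaf (w s) s l) ?_ ?_ ?_
      · intro s hs n _
        exact wl_nonneg (hwn s (mem_filter.1 hs).1) s l n
      · intro s hs
        exact hwt s (mem_filter.1 hs).1 l hl
      · intro s hs
        exact (mem_filter.1 hs).2
    · refine hB2 ι l.toWord (FreeGroup.isReduced_toWord) S β hβ X V hV (JA l)
        (fun s => wl (R s) leaf (w s) s l) ?_ ?_ ?_
      · intro s hs n _
        exact wl_nonneg (hwn s (mem_filter.1 hs).1) s l n
      · intro s hs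
        exact hwt s (mem_filter.1 hs).1 l hl
      · intro s hs
        exact (mem_filter.1 hs).2
  calc 𝒥.card ≤ (P.biUnion (fun l => JD l ∪ JA l)).card := card_le_card hcov
    _ ≤ ∑ l ∈ P, (JD l ∪ JA l).card := card_biUnion_le
    _ ≤ ∑ l ∈ P, (B1 + B2) := sum_le_sum hcard
    _ = P.card * (B1 + B2) := by rw [sum_const, smul_eq_mul]
    _ ≤ ⌈1 / τ⌉₊ * (B1 + B2) := by
        apply Nat.mul_le_mul_right
        have h6 : (P.card : ℝ) ≤ 1 / τ := by rw [le_div_iff₀ hτ]; exact hPτ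
        have h7 : (P.card : ℝ) ≤ (⌈1 / τ⌉₊ : ℝ) := h6.trans (Nat.le_ceil _)
        exact_mod_cast h7

end Pool.Agent.H71.FCX
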